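import Pool.Agent.TH936.AE.Stmts
import Pool.Agent.TH936.AC.Fin

/-!
# Project AG (owner helper936): weight functions, the mollifier, Cauchy-Schwarz
-/

set_option autoImplicit false

open Complex

namespace Pool.Agent.TH936.AG

open Pool.Agent.W192.HK Pool.Agent.TH936.AC Pool.Agent.TH936.AW Pool.Agent.TH936.AD
  Pool.Agent.TH936.AE

variable {R : Subring ℂ} {ω : ℂ}

/-- rapid decrease, at most a logarithmic singularity at `0` -/
def Dc (U : ℝ → ℝ) : Prop :=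
  ∀ s : ℝ, 0 < s → ∃ C : ℝ, 0 < C ∧ ∀ x : ℝ, 0 < x → |U x| ≤ C * x ^ (-s)

theorem exp_dc (s : ℝ) (hs : 0 < s) : ∃ C : ℝ, 0 < C ∧ ∀ x : ℝ, 0 < x →
    Real.exp (-(x / 2)) ≤ C * x ^ (-s) := by
  obtain ⟨n, hn⟩ := exists_nat_ge s
  have hf : (0 : ℝ) < n.factorial := by exact_mod_cast Nat.factorial_pos n
  refine ⟨(n.factorial : ℝ) * 2 ^ n + 1, by positivity, fun x hx => ?_⟩
  rcases le_or_gt x 1 with h1 | h1
  · have e2 : 1 ≤ x ^ (-s) := Real.one_le_rpow_of_pos_of_le_one_of_nonpos hx h1 (by linarith)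
    have e3 : Real.exp (-(x / 2)) ≤ 1 := Real.exp_le_one_iff.2 (by linarith)
    have e4 : (1 : ℝ) ≤ (n.factorial : ℝ) * 2 ^ n + 1 := by
      have : 0 < (n.factorial : ℝ) * 2 ^ n := by positivity
      linarith
    calc Real.exp (-(x / 2)) ≤ 1 * 1 := by linarith
      _ ≤ _ := mul_le_mul e4 e2 zero_le_one (by linarith)
  · have h := Real.pow_div_factorial_le_exp (x / 2) (by positivity) n
    have e1 : Real.exp (-(x / 2)) ≤ (n.factorial : ℝ) * 2 ^ n / x ^ n := by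
      rw [Real.exp_neg]
      calc (Real.exp (x / 2))⁻¹ ≤ ((x / 2) ^ n / (n.factorial : ℝ))⁻¹ := inv_anti₀ (by positivity) h
        _ = (n.factorial : ℝ) * 2 ^ n / x ^ n := by
          rw [div_pow]; field_simp
    have e2 : (x ^ n)⁻¹ ≤ x ^ (-s) := by
      rw [← Real.rpow_natCast, ← Real.rpow_neg hx.le]
      exact Real.rpow_le_rpow_of_exponent_le h1.le (by linarith)
    have e3 : 0 ≤ x ^ (-s) := Real.rpow_nonneg hx.le _
    calc Real.exp (-(x / 2)) ≤ (n.factorial : ℝ) * 2 ^ n * (x ^ n)⁻¹ := by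
          rw [← div_eq_mul_inv]; exact e1
      _ ≤ (n.factorial : ℝ) * 2 ^ n * x ^ (-s) := mul_le_mul_of_nonneg_left e2 (by positivity)
      _ ≤ _ := by
          refine mul_le_mul_of_nonneg_right ?_ e3
          linarith

theorem dc_of_exp {U : ℝ → ℝ} {C : ℝ} (hC : 0 < C)
    (hU : ∀ x : ℝ, 0 < x → |U x| ≤ C * Real.exp (-(x / 2))) : Dc U := by
  intro s hs
  obtain ⟨C', hC', h⟩ := exp_dc s hs
  refine ⟨C * C', by positivity, fun x hx => (hU x hx).trans ?_⟩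
  rw [mul_assoc]
  exact mul_le_mul_of_nonneg_left (h x hx) hC.le

theorem dc_wg {U : ℝ → ℝ} {C : ℝ} (hU : WG U C) : Dc U :=
  dc_of_exp hU.pos fun x hx => by
    rw [abs_of_nonneg (hU.nonneg x hx)]
    exact hU.dec x hx

theorem dc_wl {U : ℝ → ℝ} {κ C : ℝ} (hU : WL U κ C) : Dc U := by
  intro s hs
  obtain ⟨C', hC', h⟩ := exp_dc s hs
  have hC := hU.pos
  refine ⟨C * C' + (1 / s + |κ| + C), by positivity, fun x hx => ?_⟩
  have hxs : 0 ≤ x ^ (-s) := Real.rpow_nonneg hx.le _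
  rw [abs_of_nonneg (hU.nonneg x hx)]
  rcases le_or_gt 1 x with h1 | h1
  · have e1 := hU.dec x h1
    calc U x ≤ C * Real.exp (-(x / 2)) := e1
      _ ≤ C * (C' * x ^ (-s)) := mul_le_mul_of_nonneg_left (h x hx) hC.le
      _ = (C * C' + 0) * x ^ (-s) := by ring
      _ ≤ _ := by
          refine mul_le_mul_of_nonneg_right ?_ hxs
          have : 0 ≤ 1 / s + |κ| + C := by positivity
          linarith
  · have e1 := hU.log x hx h1.le
    have e2 : 1 ≤ x ^ (-s) := Real.one_le_rpow_of_pos_of_le_one_of_nonpos hx h1.le (by linarith)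
    have e3 : -Real.log x ≤ 1 / s * x ^ (-s) := by
      have e4 := Real.log_le_rpow_div (inv_nonneg.2 hx.le) hs
      rw [Real.log_inv, Real.inv_rpow hx.le, ← Real.rpow_neg hx.le] at e4
      calc -Real.log x ≤ x ^ (-s) / s := e4
        _ = _ := by ring
    have e5 : U x ≤ -Real.log x + |κ| + C * x := by
      have e6 := (abs_le.1 e1).2
      have e7 := le_abs_self κ
      linarith
    have e8 : |κ| + C * x ≤ (|κ| + C) * x ^ (-s) := by
      have e9 : |κ| + C * x ≤ (|κ| + C) * 1 := by nlinarith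
      exact e9.trans (mul_le_mul_of_nonneg_left e2 (by positivity))
    have e10 : 0 ≤ C * C' * x ^ (-s) := by positivity
    calc U x ≤ 1 / s * x ^ (-s) + (|κ| + C) * x ^ (-s) := by linarith
      _ ≤ C * C' * x ^ (-s) + (1 / s * x ^ (-s) + (|κ| + C) * x ^ (-s)) := by linarith
      _ = _ := by ring

/-- a bound for the mollifier -/
theorem ml_le (h1 : H_BASIC) (h3 : H_CNT) (h5 : A_PROD) (hR : QP R ω) : ∃ C : ℝ, 0 < C ∧
    ∀ (f : Ideal R) (g : Ideal R → ℂ), f ≠ ⊥ → (∀ I, ‖g I‖ ≤ Real.sqrt (nm I)) →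
    ∀ y Z : ℝ, 1 ≤ Z → ∀ χ : Ideal R → ℂ, (∀ I, ‖χ I‖ ≤ 1) →
      ‖Ml f y Z g χ‖ ≤ C * Z ^ (13 / 25 : ℝ) := by
  classical
  obtain ⟨b1, b2, b3, b4, b5, b6, b7, b8, b9⟩ := h1 R ω hR.qr
  obtain ⟨hfin, hsum, -⟩ := h3 R ω hR.qr
  have hs := hsum (51 / 50) (by norm_num)
  have hS0 : 0 ≤ ∑' I : Ideal R, (nm I) ^ (-(51 / 50 : ℝ)) :=
    tsum_nonneg fun I => Real.rpow_nonneg (Nat.cast_nonneg _) _
  refine ⟨(∑' I : Ideal R, (nm I) ^ (-(51 / 50 : ℝ))) + 1, by positivity,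
    fun f g hf hg y Z hZ χ hχ => ?_⟩
  have hZ0 : 0 < Z := by linarith
  obtain ⟨p1, p2, -⟩ := h5 R ω hR f y hf
  have hmem : ∀ b ∈ BB f y Z, b ∈ (SP f y).powerset ×ˢ (SP f y).powerset ∧ (nB b : ℝ) ≤ Z := by
    intro b hb
    unfold BB at hb
    exact Finset.mem_filter.1 hb
  have hterm : ∀ b ∈ BB f y Z, ‖(sB b : ℂ) * (χ (mB f b) * g (mB f b)) / (nB b : ℂ)‖ ≤
      Z ^ (13 / 25 : ℝ) * (nm (mB f b)) ^ (-(51 / 50 : ℝ)) := by
    intro b hb
    obtain ⟨q1, q2, q3⟩ := p1 b (hmem b hb).1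
    have hn1 : 1 ≤ nm (mB f b) := b3 _ q2
    have hn0 : 0 < nm (mB f b) := by linarith
    have hnZ : nm (mB f b) ≤ Z := by rw [q1]; exact (hmem b hb).2
    have hs : ‖(sB b : ℂ)‖ = 1 := by
      unfold sB
      push_cast
      rw [norm_pow, norm_neg, norm_one, one_pow]
    have hnb : ((nB b : ℕ) : ℂ) = ((nm (mB f b) : ℝ) : ℂ) := by
      rw [q1]
      push_cast
      rfl
    rw [hnb, norm_div, norm_mul, hs, one_mul, norm_mul, Complex.norm_real,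
      Real.norm_of_nonneg hn0.le]
    calc ‖χ (mB f b)‖ * ‖g (mB f b)‖ / nm (mB f b) ≤
          1 * (nm (mB f b)) ^ (1 / 2 : ℝ) / nm (mB f b) := by
          gcongr
          · exact hχ _
          · rw [← Real.sqrt_eq_rpow]
            exact hg _
      _ = (nm (mB f b)) ^ (1 / 2 : ℝ) * (nm (mB f b)) ^ (-1 : ℝ) := by
          rw [Real.rpow_neg_one]
          ring
      _ = (nm (mB f b)) ^ (13 / 25 : ℝ) * (nm (mB f b)) ^ (-(51 / 50 : ℝ)) := by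
          rw [← Real.rpow_add hn0, ← Real.rpow_add hn0]
          norm_num
      _ ≤ _ := by
          refine mul_le_mul_of_nonneg_right ?_ (Real.rpow_nonneg hn0.le _)
          exact Real.rpow_le_rpow hn0.le hnZ (by norm_num)
  have hinj : Set.InjOn (mB f) (BB f y Z : Set (Finset ℕ × Finset ℕ)) := fun b hb b' hb' h =>
    p2 b (hmem b hb).1 b' (hmem b' hb').1 h
  calc ‖Ml f y Z g χ‖ ≤ ∑ b ∈ BB f y Z, ‖(sB b : ℂ) * (χ (mB f b) * g (mB f b)) / (nB b : ℂ)‖ :=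
        norm_sum_le _ _
    _ ≤ ∑ b ∈ BB f y Z, Z ^ (13 / 25 : ℝ) * (nm (mB f b)) ^ (-(51 / 50 : ℝ)) :=
        Finset.sum_le_sum hterm
    _ = Z ^ (13 / 25 : ℝ) * ∑ b ∈ BB f y Z, (nm (mB f b)) ^ (-(51 / 50 : ℝ)) := by
        rw [Finset.mul_sum]
    _ = Z ^ (13 / 25 : ℝ) * ∑ I ∈ (BB f y Z).image (mB f), (nm I) ^ (-(51 / 50 : ℝ)) := by
        rw [Finset.sum_image hinj]
    _ ≤ Z ^ (13 / 25 : ℝ) * ∑' I : Ideal R, (nm I) ^ (-(51 / 50 : ℝ)) := by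
        refine mul_le_mul_of_nonneg_left ?_ (by positivity)
        exact hs.sum_le_tsum _ fun I _ => Real.rpow_nonneg (Nat.cast_nonneg _) _
    _ ≤ Z ^ (13 / 25 : ℝ) * ((∑' I : Ideal R, (nm I) ^ (-(51 / 50 : ℝ))) + 1) := by
        refine mul_le_mul_of_nonneg_left (by linarith) (by positivity)
    _ = _ := by ring

/-- Cauchy-Schwarz for the exceptional exponents -/
theorem cs_sum {EE : Finset ℕ} {d : ℕ} (hEE : EE ⊆ Finset.range d) {u v : ℕ → ℂ} {A S : ℝ}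
    (hA0 : 0 ≤ A) (hA : ∀ b, ‖u b‖ ≤ A) (hS : ∑ a ∈ Finset.range d, ‖v a‖ ^ 2 ≤ S) :
    ‖∑ b ∈ EE, u b * v b‖ ≤ A * (Real.sqrt EE.card * Real.sqrt S) := by
  have e1 : ‖∑ b ∈ EE, u b * v b‖ ≤ A * ∑ b ∈ EE, ‖v b‖ := by
    rw [Finset.mul_sum]
    refine (norm_sum_le _ _).trans (Finset.sum_le_sum fun b _ => ?_)
    rw [norm_mul]
    exact mul_le_mul_of_nonneg_right (hA b) (norm_nonneg _)
  refine e1.trans (mul_le_mul_of_nonneg_left ?_ hA0)
  rw [← Real.sqrt_mul (Nat.cast_nonneg _)]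
  refine Real.le_sqrt_of_sq_le ?_
  refine (sq_sum_le_card_mul_sum_sq).trans (mul_le_mul_of_nonneg_left ?_ (Nat.cast_nonneg _))
  refine le_trans ?_ hS
  exact Finset.sum_le_sum_of_subset_of_nonneg hEE fun _ _ _ => sq_nonneg _

/-- the contribution of the large values -/
theorem large_part {EE : Finset ℕ} {d : ℕ} (hEE : EE ⊆ Finset.range d) {u v : ℕ → ℂ}
    {Q CM C6 : ℝ} (hQ : 1 ≤ Q) (hCM : 0 < CM) (hC6 : 0 < C6)
    (hA : ∀ b, ‖u b‖ ≤ CM * (Q ^ (1 / 10 : ℝ)) ^ (13 / 25 : ℝ))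
    (hS : ∑ a ∈ Finset.range d, ‖v a‖ ^ 2 ≤ C6 * Q ^ (1 + 1 / 100 : ℝ))
    (hc : (EE.card : ℝ) ≤ (d : ℝ) ^ 2 * Q ^ (-9 / 8 : ℝ)) :
    ‖∑ b ∈ EE, u b * v b‖ ≤ d * (CM * Real.sqrt C6 * Q ^ (-1 / 200 : ℝ)) := by
  have hQ0 : 0 < Q := by linarith
  refine (cs_sum hEE (by positivity) hA hS).trans ?_
  have e1 : Real.sqrt EE.card ≤ d * Q ^ (-9 / 16 : ℝ) := by
    rw [Real.sqrt_le_left (by positivity)]
    refine hc.trans (le_of_eq ?_)
    rw [mul_pow, ← Real.rpow_natCast (Q ^ (-9 / 16 : ℝ)) 2, ← Real.rpow_mul hQ0.le]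
    norm_num
  have e2 : Real.sqrt (C6 * Q ^ (1 + 1 / 100 : ℝ)) = Real.sqrt C6 * Q ^ (101 / 200 : ℝ) := by
    rw [Real.sqrt_mul hC6.le, Real.sqrt_eq_rpow (Q ^ (1 + 1 / 100 : ℝ)), ← Real.rpow_mul hQ0.le]
    norm_num
  rw [e2]
  calc CM * (Q ^ (1 / 10 : ℝ)) ^ (13 / 25 : ℝ) * (Real.sqrt EE.card *
        (Real.sqrt C6 * Q ^ (101 / 200 : ℝ))) ≤
        CM * (Q ^ (1 / 10 : ℝ)) ^ (13 / 25 : ℝ) * ((d * Q ^ (-9 / 16 : ℝ)) *
        (Real.sqrt C6 * Q ^ (101 / 200 : ℝ))) := by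
        refine mul_le_mul_of_nonneg_left ?_ (by positivity)
        exact mul_le_mul_of_nonneg_right e1 (by positivity)
    _ = d * (CM * Real.sqrt C6 * (Q ^ (13 / 250 : ℝ) * Q ^ (-9 / 16 : ℝ) * Q ^ (101 / 200 : ℝ))) := by
        rw [← Real.rpow_mul hQ0.le]
        norm_num
        ring
    _ ≤ _ := by
        refine mul_le_mul_of_nonneg_left ?_ (Nat.cast_nonneg _)
        refine mul_le_mul_of_nonneg_left ?_ (by positivity)
        rw [← Real.rpow_add hQ0, ← Real.rpow_add hQ0]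
        exact Real.rpow_le_rpow_of_exponent_le hQ (by norm_num)

/-- the contribution of the small values -/
theorem small_part {FF : Finset ℕ} {d : ℕ} (hFF : FF ⊆ Finset.range d) {u v : ℕ → ℂ}
    {Q CM : ℝ} (hQ : 1 ≤ Q) (hCM : 0 < CM)
    (hA : ∀ b, ‖u b‖ ≤ CM * (Q ^ (1 / 10 : ℝ)) ^ (13 / 25 : ℝ))
    (hv : ∀ b ∈ FF, ‖v b‖ ≤ Q ^ (-1 / 17 : ℝ)) :
    ‖∑ b ∈ FF, u b * v b‖ ≤ d * (CM * Q ^ (-1 / 200 : ℝ)) := by
  have hQ0 : 0 < Q := by linarith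
  have e5 : 0 ≤ CM * Q ^ (-1 / 200 : ℝ) := mul_nonneg hCM.le (Real.rpow_nonneg hQ0.le _)
  calc ‖∑ b ∈ FF, u b * v b‖ ≤ ∑ b ∈ FF, ‖u b * v b‖ := norm_sum_le _ _
    _ ≤ ∑ _b ∈ FF, (CM * Q ^ (-1 / 200 : ℝ)) := by
        refine Finset.sum_le_sum fun b hb => ?_
        rw [norm_mul]
        calc ‖u b‖ * ‖v b‖ ≤ (CM * (Q ^ (1 / 10 : ℝ)) ^ (13 / 25 : ℝ)) * Q ^ (-1 / 17 : ℝ) :=
              mul_le_mul (hA b) (hv b hb) (norm_nonneg _) (by positivity)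
          _ = CM * Q ^ (13 / 250 + -1 / 17 : ℝ) := by
              rw [← Real.rpow_mul hQ0.le, Real.rpow_add hQ0]
              norm_num
              ring
          _ ≤ CM * Q ^ (-1 / 200 : ℝ) := mul_le_mul_of_nonneg_left
              (Real.rpow_le_rpow_of_exponent_le hQ (by norm_num)) hCM.le
    _ = FF.card * (CM * Q ^ (-1 / 200 : ℝ)) := by rw [Finset.sum_const, nsmul_eq_mul]
    _ ≤ _ := by
        refine mul_le_mul_of_nonneg_right ?_ e5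
        have := Finset.card_le_card hFF
        rw [Finset.card_range] at this
        exact_mod_cast this

end Pool.Agent.TH936.AG
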