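import Pool.Agent.TH936.AG.Ms
import Pool.Agent.TH936.AG.CoreE
import Pool.Agent.TH936.AE.Fin
import Pool.Agent.TH936.AE.Ram
import Pool.Agent.TH936.AE.V
import Pool.Agent.TH936.AE.Eps
import Pool.Agent.TH936.AE.Fe
import Pool.Agent.TH936.AE.Phi
import Pool.Agent.TH936.AE.Phi2
import Pool.Agent.TH936.AE.Reg
import Pool.Agent.TH936.AD.Dl
import Pool.Agent.TH936.AD.Rbd
import Pool.Agent.TH936.AD.Scount
import Pool.Agent.TH936.AD.Ssum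
import Pool.Agent.TH936.AC.Bar
import Pool.Agent.TH936.AC.Dec
import Pool.Agent.TH936.AC.Line
import Pool.Agent.TH936.AC.Ori
import Pool.Agent.TH936.AC.Count
import Pool.Agent.TH936.AC.Tail
import Pool.Agent.TH936.AC.Rough
import Pool.Agent.TH936.AC.Prd
import Pool.Agent.TH936.AC.Rank
import Pool.Agent.TH936.AC.Rbd
import Pool.Agent.W216.CY.Div
import Pool.Agent.W287.HK.Basic
import Pool.Agent.W571.HK.Cls
import Pool.Agent.W53.HK.Fp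
import Pool.Agent.W366.HK.Fpr
import Pool.Agent.W585.HK.LAT
import Pool.Agent.W692.HK.Ker
import Pool.Agent.W584.HK.CNT
import Pool.Agent.W513.HK.Divr
import Pool.Agent.W513.HK.V
import Pool.Agent.W930.HK.Mob
import Pool.Agent.W856.HK.Dec
import Pool.Agent.W636.HK.Gauss
import Pool.Agent.W348.HK.Pois
import Pool.Agent.W644.HK.Theta0
import Pool.Agent.W283.HK.AFE0
import Pool.Agent.W283.HK.PW

/-!
# Project AG (owner helper936): the final theorem for ring class characters (`s = 1/2`)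
-/

set_option autoImplicit false

open Complex

namespace Pool.Agent.TH936.AG

open Pool.Agent.W192.HK Pool.Agent.TH936.AC Pool.Agent.TH936.AW Pool.Agent.TH936.AD
  Pool.Agent.TH936.AE

variable {R : Subring ℂ} {ω : ℂ}

/-- mean square and many conjugates with a large central value -/
theorem manyE (h1 : H_BASIC) (h4 : H_PW) (a1 : A_BAR) (a2 : E_V) (a3 : E_EPS) (a4 : E_FE)
    (hR : QP R ω) {p : ℕ} {P : Ideal R} (hP : RP p P)
    (hms : ∀ (V : ℝ → ℝ) (CV : ℝ), WG V CV → ∀ ε : ℝ, 0 < ε → ∀ x0 : ℝ, 0 < x0 →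
      ∃ C : ℝ, 0 < C ∧ ∀ (q : ℕ) (χ : Ideal R → ℂ), RG q χ → ∀ d : ℕ, Od χ d →
      ∑ a ∈ Finset.range d, ‖smo V (gP P) (x0 * q) (pw χ a)‖ ^ 2 ≤ C * (q : ℝ) ^ (1 + ε))
    (hcore : ∀ (V : ℝ → ℝ) (CV : ℝ), WG V CV → ∀ (L0 L1 : ℂ) (CE : ℝ), EP V P (gP P) L0 L1 CE →
      ∀ x0 : ℝ, 0 < x0 → ∀ M : ℕ, 1 ≤ M → ∀ ε : ℝ, 0 < ε → ∃ q0 : ℝ, ∀ (q : ℕ) (χ : Ideal R → ℂ),
        RG q χ → IsCoprime P (sp (q : R)) → q0 ≤ q → ∀ d : ℕ, Od χ d → (q : ℝ) ^ (2 / 3 + ε) ≤ d →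
        ∀ M₁ : ℕ, 1 ≤ M₁ → M₁ ≤ M → M₁ ∣ d →
        (d : ℝ) ^ 2 * (q : ℝ) ^ (-9 / 8 : ℝ) ≤ (((Ea d M₁).filter (fun b =>
          (q : ℝ) ^ (-1 / 17 : ℝ) ≤ ‖smo V (gP P) (x0 * q) (pw χ b)‖)).card : ℝ)) :
    ∃ L : (Ideal R → ℂ) → ℂ → ℂ,
      (∀ (q : ℕ) (χ : Ideal R → ℂ), q ≠ p → HC 0 (sp (q : R)) χ → RG q χ → IsL0 χ (L χ)) ∧
      (∀ ε : ℝ, 0 < ε → ∃ C : ℝ, 0 < C ∧ ∀ (q : ℕ) (χ : Ideal R → ℂ), q ≠ p →
        HC 0 (sp (q : R)) χ → RG q χ → ∀ d : ℕ, Od χ d →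
          ∑ a ∈ (Finset.range d).filter (fun a => Nat.Coprime a d),
            ‖L (pw χ a) (1 / 2)‖ ^ 2 ≤ C * (q : ℝ) ^ (1 + ε)) ∧
      ∀ M : ℕ, 1 ≤ M → ∀ ε : ℝ, 0 < ε → ∃ q0 : ℝ, ∀ (q : ℕ) (χ : Ideal R → ℂ),
        HC 0 (sp (q : R)) χ → RG q χ → q0 ≤ q → ∀ d : ℕ, Od χ d → (q : ℝ) ^ (2 / 3 + ε) ≤ d →
        ∀ M₁ : ℕ, 1 ≤ M₁ → M₁ ≤ M → M₁ ∣ d →
        (d : ℝ) ^ 2 * (q : ℝ) ^ (-9 / 8 : ℝ) ≤ (Set.ncard {a : ℕ | a < d ∧ Nat.Coprime a d ∧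
          a % M₁ = 1 % M₁ ∧ (q : ℝ) ^ (-1 / 17 : ℝ) ≤ ‖L (pw χ a) (1 / 2)‖} : ℝ) := by
  classical
  obtain ⟨Lx, hLx⟩ : ∃ Lx : (Ideal R → ℂ) → ℂ → ℂ, ∀ (χ : Ideal R → ℂ) (F : ℂ → ℂ),
      IsL0 χ F → Lx χ = F := by
    refine ⟨fun χ => if h : ∃ F, IsL0 χ F then Classical.choose h
      else fun _ => 0, fun χ F hF => ?_⟩
    have h : ∃ F, IsL0 χ F := ⟨F, hF⟩
    have e1 := Classical.choose_spec h
    show (if h : ∃ F, IsL0 χ F then Classical.choose h else fun _ => 0) = F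
    rw [dif_pos h]
    exact Pool.Agent.TH936.CM.entire_eq e1.diff hF.diff 1 fun z hz =>
      (e1.sum z hz).unique (hF.sum z hz)
  have him := hR.qr.im
  have hx0 : 0 < ω.im / Real.pi := div_pos him Real.pi_pos
  -- the sign of `χ(P)` and the values
  have hsg : ∀ (q : ℕ) (χ : Ideal R → ℂ), q ≠ p → HC 0 (sp (q : R)) χ → RG q χ →
      ((χ P).re = 1 ∨ (χ P).re = -1) ∧ ∀ d : ℕ, Od χ d → ∀ a : ℕ, Nat.Coprime a d →
        Lx (pw χ a) (1 / 2) = 2 * smo (Ve p (χ P).re) (gP P) (ω.im / Real.pi * q) (pw χ a) := by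
    intro q χ hqp hχ hrg
    have hfe := a4 R ω hR p P hP q
    have hsgn := (hfe χ hqp hχ hrg).1
    refine ⟨?_, fun d hd a ha => ?_⟩
    · rcases hsgn with h | h
      · left; rw [h]; simp
      · right; rw [h]; simp
    · obtain ⟨-, F, l1, l2, l3⟩ := hfe (pw χ a) hqp (h4 R ω hR.qr _ χ hχ d hd a ha) (rg_pw hrg a)
      rw [hLx _ F ⟨l1, l2⟩, l3, pw_P hsgn hd ha]
      have e1 : ω.im * (q : ℝ) / Real.pi = ω.im / Real.pi * q := by ring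
      rw [e1]
  refine ⟨Lx, fun q χ hqp hχ hrg => ?_, fun ε hε => ?_, fun M hM ε hε => ?_⟩
  · obtain ⟨-, F, k1, k2, -⟩ := a4 R ω hR p P hP q χ hqp hχ hrg
    rw [hLx χ F ⟨k1, k2⟩]
    exact ⟨k1, k2⟩
  · have key : ∀ η : ℝ, (η = 1 ∨ η = -1) → ∃ C : ℝ, 0 < C ∧ ∀ (q : ℕ) (χ : Ideal R → ℂ), RG q χ →
        ∀ d : ℕ, Od χ d → ∑ a ∈ Finset.range d,
          ‖smo (Ve p η) (gP P) (ω.im / Real.pi * q) (pw χ a)‖ ^ 2 ≤ C * (q : ℝ) ^ (1 + ε) := by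
      intro η hη
      obtain ⟨C, A, hW, -, -⟩ := a2 p hP.prime η hη
      exact hms _ _ hW ε hε _ hx0
    obtain ⟨C1, hC1, c1⟩ := key 1 (Or.inl rfl)
    obtain ⟨C2, hC2, c2⟩ := key (-1) (Or.inr rfl)
    refine ⟨4 * (C1 + C2), by positivity, fun q χ hqp hχ hrg d hd => ?_⟩
    obtain ⟨g1, g2⟩ := hsg q χ hqp hχ hrg
    have hq0 : 0 ≤ (q : ℝ) ^ (1 + ε) := Real.rpow_nonneg (Nat.cast_nonneg _) _
    have e0 : ∑ a ∈ Finset.range d,
        ‖smo (Ve p (χ P).re) (gP P) (ω.im / Real.pi * q) (pw χ a)‖ ^ 2 ≤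
          (C1 + C2) * (q : ℝ) ^ (1 + ε) := by
      rcases g1 with h | h
      · rw [h]
        refine (c1 q χ hrg d hd).trans (mul_le_mul_of_nonneg_right (by linarith) hq0)
      · rw [h]
        refine (c2 q χ hrg d hd).trans (mul_le_mul_of_nonneg_right (by linarith) hq0)
    calc ∑ a ∈ (Finset.range d).filter (fun a => Nat.Coprime a d), ‖Lx (pw χ a) (1 / 2)‖ ^ 2 =
          ∑ a ∈ (Finset.range d).filter (fun a => Nat.Coprime a d),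
            4 * ‖smo (Ve p (χ P).re) (gP P) (ω.im / Real.pi * q) (pw χ a)‖ ^ 2 := by
          refine Finset.sum_congr rfl fun a ha => ?_
          rw [Finset.mem_filter] at ha
          rw [g2 d hd a ha.2, norm_mul, mul_pow]
          norm_num
      _ = 4 * ∑ a ∈ (Finset.range d).filter (fun a => Nat.Coprime a d),
            ‖smo (Ve p (χ P).re) (gP P) (ω.im / Real.pi * q) (pw χ a)‖ ^ 2 := by
          rw [Finset.mul_sum]
      _ ≤ 4 * ∑ a ∈ Finset.range d,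
            ‖smo (Ve p (χ P).re) (gP P) (ω.im / Real.pi * q) (pw χ a)‖ ^ 2 := by
          refine mul_le_mul_of_nonneg_left ?_ (by norm_num)
          exact Finset.sum_le_sum_of_subset_of_nonneg (Finset.filter_subset _ _)
            fun _ _ _ => sq_nonneg _
      _ ≤ 4 * ((C1 + C2) * (q : ℝ) ^ (1 + ε)) := mul_le_mul_of_nonneg_left e0 (by norm_num)
      _ = _ := by ring
  · have key : ∀ η : ℝ, (η = 1 ∨ η = -1) → ∃ q0 : ℝ, ∀ (q : ℕ) (χ : Ideal R → ℂ),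
        RG q χ → IsCoprime P (sp (q : R)) → q0 ≤ q → ∀ d : ℕ, Od χ d → (q : ℝ) ^ (2 / 3 + ε) ≤ d →
        ∀ M₁ : ℕ, 1 ≤ M₁ → M₁ ≤ M → M₁ ∣ d →
        (d : ℝ) ^ 2 * (q : ℝ) ^ (-9 / 8 : ℝ) ≤ (((Ea d M₁).filter (fun b =>
          (q : ℝ) ^ (-1 / 17 : ℝ) ≤ ‖smo (Ve p η) (gP P) (ω.im / Real.pi * q) (pw χ b)‖)).card
            : ℝ) := by
      intro η hη
      obtain ⟨C, A, hW, hA, hV⟩ := a2 p hP.prime η hη
      obtain ⟨L0, L1, C', hE⟩ := a3 R ω hR p P hP (Ve p η) C A hW hA hV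
      exact hcore _ _ hW _ _ _ hE _ hx0 M hM ε hε
    obtain ⟨q1, hq1⟩ := key 1 (Or.inl rfl)
    obtain ⟨q2, hq2⟩ := key (-1) (Or.inr rfl)
    refine ⟨max (max q1 q2) (p + 1), fun q χ hχ hrg hq d hd hdq M₁ m1 m2 m3 => ?_⟩
    have hqq1 : q1 ≤ q := ((le_max_left _ _).trans (le_max_left _ _)).trans hq
    have hqq2 : q2 ≤ q := ((le_max_right _ _).trans (le_max_left _ _)).trans hq
    have hqp' : (p : ℝ) + 1 ≤ q := (le_max_right _ _).trans hq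
    have hqp : q ≠ p := by
      intro h
      rw [h] at hqp'
      linarith
    have hcop := cop_of_ne hP hrg.prime hqp
    obtain ⟨g1, g2⟩ := hsg q χ hqp hχ hrg
    have hmain : (d : ℝ) ^ 2 * (q : ℝ) ^ (-9 / 8 : ℝ) ≤ (((Ea d M₁).filter (fun b =>
          (q : ℝ) ^ (-1 / 17 : ℝ) ≤ ‖smo (Ve p (χ P).re) (gP P) (ω.im / Real.pi * q)
            (pw χ b)‖)).card : ℝ) := by
      rcases g1 with h | h
      · rw [h]
        exact hq1 q χ hrg hcop hqq1 d hd hdq M₁ m1 m2 m3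
      · rw [h]
        exact hq2 q χ hrg hcop hqq2 d hd hdq M₁ m1 m2 m3
    refine hmain.trans ?_
    rw [← Set.ncard_coe_finset]
    have hfin : {a : ℕ | a < d ∧ Nat.Coprime a d ∧ a % M₁ = 1 % M₁ ∧
        (q : ℝ) ^ (-1 / 17 : ℝ) ≤ ‖Lx (pw χ a) (1 / 2)‖}.Finite :=
      (Set.finite_Iio d).subset fun a ha => ha.1
    refine Nat.cast_le.2 (Set.ncard_le_ncard ?_ hfin)
    intro a ha
    rw [Finset.mem_coe, Finset.mem_filter] at ha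
    obtain ⟨ha1, ha2⟩ := ha
    unfold Ea at ha1
    rw [Finset.mem_filter, Finset.mem_range] at ha1
    obtain ⟨k1, k2, k3⟩ := ha1
    refine ⟨k1, k2, k3, ?_⟩
    rw [g2 d hd a k2, norm_mul]
    have e2 : ‖(2 : ℂ)‖ = 2 := by norm_num
    rw [e2]
    have e3 := norm_nonneg (smo (Ve p (χ P).re) (gP P) (ω.im / Real.pi * q) (pw χ a))
    linarith

/-- the final theorem -/
theorem finalE (hQ : QP R ω) : ∃ (p : ℕ) (P : Ideal R), RP p P ∧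
    ∃ L : (Ideal R → ℂ) → ℂ → ℂ,
      (∀ (q : ℕ) (χ : Ideal R → ℂ), q ≠ p → HC 0 (sp (q : R)) χ → RG q χ → IsL0 χ (L χ)) ∧
      (∀ ε : ℝ, 0 < ε → ∃ C : ℝ, 0 < C ∧ ∀ (q : ℕ) (χ : Ideal R → ℂ), q ≠ p →
        HC 0 (sp (q : R)) χ → RG q χ → ∀ d : ℕ, Od χ d →
          ∑ a ∈ (Finset.range d).filter (fun a => Nat.Coprime a d),
            ‖L (pw χ a) (1 / 2)‖ ^ 2 ≤ C * (q : ℝ) ^ (1 + ε)) ∧
      ∀ M : ℕ, 1 ≤ M → ∀ ε : ℝ, 0 < ε → ∃ q0 : ℝ, ∀ (q : ℕ) (χ : Ideal R → ℂ),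
        HC 0 (sp (q : R)) χ → RG q χ → q0 ≤ q → ∀ d : ℕ, Od χ d → (q : ℝ) ^ (2 / 3 + ε) ≤ d →
        ∀ M₁ : ℕ, 1 ≤ M₁ → M₁ ≤ M → M₁ ∣ d →
        (d : ℝ) ^ 2 * (q : ℝ) ^ (-9 / 8 : ℝ) ≤ (Set.ncard {a : ℕ | a < d ∧ Nat.Coprime a d ∧
          a % M₁ = 1 % M₁ ∧ (q : ℝ) ^ (-1 / 17 : ℝ) ≤ ‖L (pw χ a) (1 / 2)‖} : ℝ) := by
  have hbasic := Pool.Agent.W287.HK.h_basic
  have hcls := Pool.Agent.W571.HK.h_cls hbasic
  have hfp := Pool.Agent.W53.HK.h_fp hbasic hcls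
  have hfpr := Pool.Agent.W366.HK.h_fpr hbasic hcls
  have hlat := Pool.Agent.W585.HK.h_lat hbasic
  have hker := Pool.Agent.W692.HK.h_ker hbasic hcls hfpr
  have hcnt := Pool.Agent.W584.HK.h_cnt hbasic hcls hfpr hlat hker
  have hdivr := Pool.Agent.W513.HK.h_divr hbasic
  have hmob := Pool.Agent.W930.HK.h_mob
  have hdiv := Pool.Agent.W216.CY.t_div
  have hdec := Pool.Agent.W856.HK.h_dec hbasic
  have hgauss := Pool.Agent.W636.HK.h_gauss hbasic hfp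
  have hpois := Pool.Agent.W348.HK.h_pois hbasic
  have htheta := Pool.Agent.W644.HK.n_theta hbasic hfp hdec hgauss hpois hcnt
  have hafe := Pool.Agent.W283.HK.n_afe hbasic hfp hcnt hgauss htheta
  have hpw := Pool.Agent.W283.HK.PW.h_pw hbasic
  -- project AC
  have abar := Pool.Agent.TH936.AC.a_bar hbasic
  have adec := Pool.Agent.TH936.AC.a_dec hbasic abar
  have aline := Pool.Agent.TH936.AC.a_line hbasic hfpr hker abar
  have aori := Pool.Agent.TH936.AC.a_ori abar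
  have acount := Pool.Agent.TH936.AC.a_count hbasic hcnt hdivr hfpr abar aline aori
  have arcount := Pool.Agent.TH936.AC.a_rcount hbasic hcnt hfpr abar aline aori
  have atail := Pool.Agent.TH936.AC.a_tail hbasic hcnt acount
  have arough := Pool.Agent.TH936.AC.a_rough hbasic hcnt arcount
  have aprod := Pool.Agent.TH936.AC.a_prod hbasic abar
  have arbd := Pool.Agent.TH936.AC.a_rbd hmob
  -- project AD
  have ddl := d_dl hbasic abar aprod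
  have dscount := d_scount hbasic hcnt abar aline aori
  have dssum := d_ssum hdiv hbasic hcnt Pool.Agent.TH936.AC.a_mert d_rbd dscount
  -- project AE
  have eeps := e_eps hbasic abar
  have ephi := e_phi hbasic abar aprod Pool.Agent.TH936.AC.a_rank
  have ephi2 := e_phi2 hbasic hdivr abar aprod
  have ereg := e_reg hbasic hcnt hfpr abar adec aprod ephi2
  have efe := e_fe hbasic hcls hfp hfpr hcnt hpw hgauss hafe abar Pool.Agent.W513.HK.n_v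
  obtain ⟨p, P, hP⟩ := e_ram hbasic abar R ω hQ
  have hP0 : P ≠ ⊥ := by
    intro h0
    have h2 : sp (p : R) = ⊥ := by rw [← hP.sq, h0, Ideal.bot_mul]
    have h3 : (p : R) = 0 := Ideal.span_singleton_eq_bot.1 h2
    have h4 : ((p : R) : ℂ) = 0 := by rw [h3]; rfl
    rw [Subring.coe_natCast] at h4
    exact hP.prime.ne_zero (by exact_mod_cast h4)
  have hge := ge_gP hbasic hQ hP0
  have hcs := cs_gP abar hQ hP.bar
  have hcop : ∀ I, gP P I ≠ 0 → IsCoprime I P := by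
    intro I hI
    by_contra h
    exact hI ((hge.zero I).2 (Or.inr h))
  have hgs : ∀ I, gP P I ≠ 0 → IsCoprime I P ∧ IsCoprime (bar I) P := by
    intro I hI
    refine ⟨hcop I hI, hcop _ ?_⟩
    rw [hcs I]
    exact (map_ne_zero _).2 hI
  have hmsE : ∀ (V : ℝ → ℝ) (CV : ℝ), WG V CV → ∀ ε : ℝ, 0 < ε → ∀ x0 : ℝ, 0 < x0 →
      ∃ C : ℝ, 0 < C ∧ ∀ (q : ℕ) (χ : Ideal R → ℂ), RG q χ → ∀ d : ℕ, Od χ d →
      ∑ a ∈ Finset.range d, ‖smo V (gP P) (x0 * q) (pw χ a)‖ ^ 2 ≤ C * (q : ℝ) ^ (1 + ε) :=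
    fun V CV hV ε hε x0 hx0 => ms hbasic hfpr hcnt hdivr abar aline hQ hP.ram
      (Pool.Agent.TH936.AE.ge_le hge) hgs (dc_wg hV) x0 hx0 ε hε
  exact ⟨p, P, hP, manyE hbasic hpw abar e_v eeps efe hQ hP hmsE
    (fun V CV hV L0 L1 CE hE x0 hx0 M hM ε hε => Pool.Agent.TH936.AE.coreG hdiv hbasic hcnt hmob abar
      ereg ephi ephi2 atail arough Pool.Agent.TH936.AC.a_mert arbd ddl dssum aprod hQ hV hge hcs
      hP.ram hE x0 hx0 (hmsE V CV hV (1 / 100) (by norm_num) x0 hx0) M hM ε hε)⟩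

end Pool.Agent.TH936.AG
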