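import Pool.Agent.TH936.AG.Pair
import Pool.Agent.W192.HL.Orth
import Pool.Agent.W192.HL.Dyad

/-!
# Project AG (owner helper936): the mean square over the powers of a ring class character
-/

set_option autoImplicit false

open Complex

namespace Pool.Agent.TH936.AG

open Pool.Agent.W192.HK Pool.Agent.TH936.AC

variable {R : Subring ℂ} {ω : ℂ}

/-- the sum over the large ideals is bounded -/
theorem tail_le (h1 : H_BASIC) (h3 : H_CNT) (hR : QP R ω) {g : Ideal R → ℂ}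
    (hgn : ∀ I, ‖g I‖ ≤ Real.sqrt (nm I)) {U : ℝ → ℝ}
    (hU : ∀ s : ℝ, 0 < s → ∃ C : ℝ, 0 < C ∧ ∀ x : ℝ, 0 < x → |U x| ≤ C * x ^ (-s))
    (x0 : ℝ) (hx0 : 0 < x0) (η : ℝ) (hη : 0 < η) : ∃ C : ℝ, 0 < C ∧
    ∀ q : ℝ, 1 ≤ q → ∀ ξ : Ideal R → ℂ, (∀ I, ‖ξ I‖ ≤ 1) → ∀ S : Finset (Ideal R),
      (∀ I : Ideal R, I ∈ S ↔ nm I ≤ q ^ (1 + η)) →
      ‖smo U g (x0 * q) ξ - ∑ I ∈ S, ξ I * g I / (nm I : ℂ) * (U (nm I / (x0 * q)) : ℂ)‖ ≤ C := by
  classical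
  obtain ⟨b1, b2, b3, b4, b5, b6, b7, b8, b9⟩ := h1 R ω hR.qr
  obtain ⟨hfin, hsum, -⟩ := h3 R ω hR.qr
  have hs2 := hsum 2 (by norm_num)
  obtain ⟨s, hs⟩ : ∃ s : ℝ, s = 2 / η + 2 := ⟨_, rfl⟩
  have hs0 : 0 < s := by rw [hs]; positivity
  have hsη : η * s = 2 + 2 * η := by rw [hs]; field_simp
  obtain ⟨Cs, hCs, hUs⟩ := hU s hs0
  have hs32 : 3 / 2 ≤ s := by
    rw [hs]
    have : 0 < 2 / η := by positivity
    linarith
  have hZ0 : 0 ≤ ∑' I : Ideal R, (nm I) ^ (-(2 : ℝ)) :=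
    tsum_nonneg fun I => Real.rpow_nonneg (Nat.cast_nonneg _) _
  refine ⟨Cs * x0 ^ s * ((∑' I : Ideal R, (nm I) ^ (-(2 : ℝ))) + 1), by positivity, ?_⟩
  intro q hq ξ hξ S hS
  have hq0 : 0 < q := by linarith
  have hX : 0 < x0 * q := by positivity
  obtain ⟨F, hF⟩ : ∃ F : Ideal R → ℂ, F = fun I => ξ I * g I / (nm I : ℂ) *
      (U (nm I / (x0 * q)) : ℂ) := ⟨_, rfl⟩
  have hbot : (⊥ : Ideal R) ∈ S := by
    rw [hS, b2]
    positivity
  -- the general bound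
  have hb0 : ∀ I : Ideal R, I ≠ ⊥ → ‖F I‖ ≤ Cs * x0 ^ s * (q ^ s * (nm I) ^ (-(1 / 2) - s)) := by
    intro I hI
    have hn1 : 1 ≤ nm I := b3 I hI
    have hn0 : 0 < nm I := by linarith
    have e1 := hUs (nm I / (x0 * q)) (by positivity)
    have e2 : (nm I / (x0 * q)) ^ (-s) = x0 ^ s * q ^ s * (nm I) ^ (-s) := by
      rw [Real.div_rpow hn0.le hX.le, Real.rpow_neg hX.le, div_inv_eq_mul,
        Real.mul_rpow hx0.le hq0.le]
      ring
    have e3 : ‖g I‖ / nm I ≤ (nm I) ^ (-(1 / 2) : ℝ) := by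
      rw [div_le_iff₀ hn0]
      refine (hgn I).trans (le_of_eq ?_)
      rw [Real.sqrt_eq_rpow]
      nth_rewrite 3 [← Real.rpow_one (nm I)]
      rw [← Real.rpow_add hn0]
      norm_num
    rw [hF]
    simp only
    rw [norm_mul, norm_div, norm_mul, Complex.norm_real, Complex.norm_real,
      Real.norm_of_nonneg hn0.le, Real.norm_eq_abs]
    calc ‖ξ I‖ * ‖g I‖ / nm I * |U (nm I / (x0 * q))| ≤
          (1 * (nm I) ^ (-(1 / 2) : ℝ)) * (Cs * (nm I / (x0 * q)) ^ (-s)) := by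
          refine mul_le_mul ?_ e1 (abs_nonneg _) (by positivity)
          rw [mul_div_assoc]
          exact mul_le_mul (hξ I) e3 (by positivity) zero_le_one
      _ = Cs * x0 ^ s * (q ^ s * ((nm I) ^ (-(1 / 2) : ℝ) * (nm I) ^ (-s))) := by
          rw [e2]
          ring
      _ = _ := by rw [← Real.rpow_add hn0, ← sub_eq_add_neg]
  -- the large ideals
  have hb1 : ∀ I : Ideal R, I ∉ S → ‖F I‖ ≤ Cs * x0 ^ s * (nm I) ^ (-(2 : ℝ)) := by
    intro I hI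
    have hIb : I ≠ ⊥ := fun h => hI (h ▸ hbot)
    have hn1 : 1 ≤ nm I := b3 I hIb
    have hn0 : 0 < nm I := by linarith
    have hlt : q ^ (1 + η) < nm I := by
      by_contra h
      exact hI ((hS I).2 (not_lt.1 h))
    refine (hb0 I hIb).trans (mul_le_mul_of_nonneg_left ?_ (by positivity))
    have e1 : q ^ s ≤ (nm I) ^ (s - 3 / 2) := by
      calc q ^ s ≤ q ^ ((1 + η) * (s - 3 / 2)) := by
            refine Real.rpow_le_rpow_of_exponent_le hq ?_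
            nlinarith
        _ = (q ^ (1 + η)) ^ (s - 3 / 2) := by rw [← Real.rpow_mul hq0.le]
        _ ≤ _ := Real.rpow_le_rpow (by positivity) hlt.le (by linarith)
    calc q ^ s * (nm I) ^ (-(1 / 2) - s) ≤ (nm I) ^ (s - 3 / 2) * (nm I) ^ (-(1 / 2) - s) := by
          gcongr
      _ = _ := by
          rw [← Real.rpow_add hn0]
          congr 1
          ring
  -- the two parts
  obtain ⟨G, hG⟩ : ∃ G : Ideal R → ℂ, G = fun I => if I ∈ S then F I else 0 := ⟨_, rfl⟩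
  obtain ⟨H, hH⟩ : ∃ H : Ideal R → ℂ, H = fun I => if I ∈ S then 0 else F I := ⟨_, rfl⟩
  have hGz : ∀ I, I ∉ S → G I = 0 := fun I hI => by rw [hG]; simp [hI]
  have hGs : Summable G := summable_of_ne_finset_zero (s := S) (fun I hI => hGz I hI)
  have hGt : ∑' I, G I = ∑ I ∈ S, F I := by
    rw [tsum_eq_sum (s := S) (fun I hI => hGz I hI)]
    exact Finset.sum_congr rfl (fun I hI => by rw [hG]; simp [hI])
  have hHb : ∀ I : Ideal R, ‖H I‖ ≤ Cs * x0 ^ s * (nm I) ^ (-(2 : ℝ)) := by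
    intro I
    by_cases hI : I ∈ S
    · rw [hH]
      simp only [hI, if_true, norm_zero]
      have : 0 ≤ nm I := Nat.cast_nonneg _
      positivity
    · rw [hH]
      simp only [hI, if_false]
      exact hb1 I hI
  have hHs : Summable H := Summable.of_norm_bounded (hs2.mul_left _) hHb
  have hFGH : F = fun I => G I + H I := by
    funext I
    rw [hG, hH]
    by_cases hI : I ∈ S <;> simp [hI]
  have e5 : smo U g (x0 * q) ξ = ∑' I, F I := by rw [hF]; rfl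
  have e6 : ∑' I, F I = ∑ I ∈ S, F I + ∑' I, H I := by
    rw [← hGt, ← hGs.tsum_add hHs]
    exact congrArg tsum hFGH
  have e7 : ∑ I ∈ S, ξ I * g I / (nm I : ℂ) * (U (nm I / (x0 * q)) : ℂ) = ∑ I ∈ S, F I := by
    rw [hF]
  rw [e5, e6, e7, add_sub_cancel_left]
  have e8 := tsum_of_norm_bounded (hs2.mul_left (Cs * x0 ^ s)).hasSum hHb
  rw [tsum_mul_left] at e8
  refine e8.trans (mul_le_mul_of_nonneg_left (by linarith) (by positivity))

theorem sq_add_le (a b : ℝ) : (a + b) ^ 2 ≤ 2 * a ^ 2 + 2 * b ^ 2 := by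
  nlinarith [sq_nonneg (a - b)]

/-- the mean square -/
theorem ms (h1 : H_BASIC) (h2 : H_FPR) (h3 : H_CNT) (h4 : H_DIVR) (a1 : A_BAR) (a2 : A_LINE)
    (hR : QP R ω) {f : Ideal R} (hf : Ram f) {g : Ideal R → ℂ}
    (hgn : ∀ I, ‖g I‖ ≤ Real.sqrt (nm I)) (hgs : ∀ I, g I ≠ 0 → IsCoprime I f ∧ IsCoprime (bar I) f)
    {U : ℝ → ℝ}
    (hU : ∀ s : ℝ, 0 < s → ∃ C : ℝ, 0 < C ∧ ∀ x : ℝ, 0 < x → |U x| ≤ C * x ^ (-s))
    (x0 : ℝ) (hx0 : 0 < x0) (ε : ℝ) (hε : 0 < ε) : ∃ C : ℝ, 0 < C ∧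
    ∀ (q : ℕ) (χ : Ideal R → ℂ), RG q χ → ∀ d : ℕ, Od χ d →
      ∑ a ∈ Finset.range d, ‖smo U g (x0 * q) (pw χ a)‖ ^ 2 ≤ C * (q : ℝ) ^ (1 + ε) := by
  classical
  obtain ⟨η, hηd⟩ : ∃ η : ℝ, η = min (ε / 9) 1 := ⟨_, rfl⟩
  have hη : 0 < η := by rw [hηd]; exact lt_min (by positivity) one_pos
  have hη1 : η ≤ 1 := by rw [hηd]; exact min_le_right _ _
  have hη9 : 9 * η ≤ ε := by
    have : η ≤ ε / 9 := by rw [hηd]; exact min_le_left _ _
    linarith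
  have hηq : (1 + η) * ((2 : ℕ) : ℝ) * η ≤ 4 * η := by
    push_cast
    nlinarith
  obtain ⟨b1, b2, b3, b4, b5, b6, b7, b8, b9⟩ := h1 R ω hR.qr
  obtain ⟨hfin, hsum, -⟩ := h3 R ω hR.qr
  obtain ⟨-, -, k3, k4, -, -, k7, k8, k9, k10, k11, k12, k13, k14⟩ := a1 R ω hR
  obtain ⟨C1, hC1, hpair⟩ := cnt_pair h1 h2 h3 h4 a1 a2 hR hf η hη
  obtain ⟨C3, hC3, htail⟩ := tail_le h1 h3 hR hgn hU x0 hx0 η hη
  obtain ⟨Cη, hCη, hUη⟩ := hU η hη
  obtain ⟨D, hD⟩ : ∃ D : ℝ, D = 1 + 2 / (η * Real.log 2) := ⟨_, rfl⟩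
  have hlog2 : 0 < Real.log 2 := Real.log_pos one_lt_two
  have hD0 : 0 < D := by rw [hD]; positivity
  obtain ⟨B, hB⟩ : ∃ B : ℝ, B = Cη * x0 ^ η := ⟨_, rfl⟩
  have hB0 : 0 < B := by rw [hB]; positivity
  refine ⟨2 * (B ^ 2 * (2 * (12 * C1) * D ^ 2)) + 4 * C3 ^ 2 * C1, by positivity, ?_⟩
  intro q χ hχ d hd
  obtain ⟨-, hnorm, htop, -⟩ := h2 R ω hR.qr _ χ hχ.rc
  obtain ⟨Q, hQ⟩ : ∃ Q : ℝ, Q = q := ⟨_, rfl⟩
  have hQ1 : 1 ≤ Q := by rw [hQ]; exact_mod_cast hχ.prime.one_le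
  have hQ0 : 0 < Q := by linarith
  have hd0 : (0 : ℝ) < d := by exact_mod_cast hd.pos
  rw [← hQ]
  obtain ⟨Z, hZ⟩ : ∃ Z : ℝ, Z = Q ^ (1 + η) := ⟨_, rfl⟩
  have hZ1 : 1 ≤ Z := by rw [hZ]; exact Real.one_le_rpow hQ1 (by linarith)
  have hZ0 : 0 < Z := by linarith
  have hQη1 : 1 ≤ Q ^ η := Real.one_le_rpow hQ1 hη.le
  have hQη0 : 0 < Q ^ η := by linarith
  have hZQ : Z = Q * Q ^ η := by rw [hZ, Real.rpow_add hQ0, Real.rpow_one]
  -- the order is at most `2 C1 q`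
  have hdq : (d : ℝ) ≤ 2 * C1 * Q := by
    obtain ⟨g1, g2⟩ := hpair q χ hχ d hd 1 1 le_rfl le_rfl
    have hmem : ((⊤ : Ideal R), (⊤ : Ideal R)) ∈ prR f χ 1 1 := by
      refine ⟨?_, ?_, ?_, ?_, ?_, rfl⟩
      · show IsCoprime (⊤ : Ideal R) f
        rw [← Ideal.one_eq_top]
        exact isCoprime_one_left
      · show IsCoprime (bar (⊤ : Ideal R)) f
        rw [k11, ← Ideal.one_eq_top]
        exact isCoprime_one_left
      · exact ((b7 ⊤).2 rfl).le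
      · exact ((b7 ⊤).2 rfl).le
      · show χ ⊤ ≠ 0
        rw [htop]
        exact one_ne_zero
    have g3 : (1 : ℝ) ≤ (Set.ncard (prR f χ 1 1) : ℝ) := by
      have := (Set.ncard_pos g1).2 ⟨_, hmem⟩
      exact_mod_cast this
    have g4 := g3.trans g2
    rw [← hQ] at g4
    have g5 : 1 / Q ≤ 1 := by rw [div_le_one hQ0]; exact hQ1
    have g6 : C1 * (1 * 1) ^ η * (Real.sqrt (1 * 1) + 1 * 1 / Q) * (Q / d) ≤ C1 * 2 * (Q / d) := by
      have e1 : ((1 : ℝ) * 1) ^ η = 1 := by rw [mul_one, Real.one_rpow]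
      rw [e1, mul_one, mul_one, Real.sqrt_one]
      refine mul_le_mul_of_nonneg_right ?_ (by positivity)
      exact mul_le_mul_of_nonneg_left (by linarith) hC1.le
    have g7 := g4.trans g6
    rw [← mul_div_assoc, le_div_iff₀ hd0] at g7
    linarith
  obtain ⟨X, hX⟩ : ∃ X : ℝ, X = x0 * Q := ⟨_, rfl⟩
  have hX0 : 0 < X := by rw [hX]; positivity
  obtain ⟨S, hS⟩ : ∃ S : Finset (Ideal R), S = (hfin Z).toFinset := ⟨_, rfl⟩
  have hSm : ∀ I : Ideal R, I ∈ S ↔ nm I ≤ Z := by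
    intro I
    rw [hS, Set.Finite.mem_toFinset]
    rfl
  obtain ⟨w, hw⟩ : ∃ w : Ideal R → ℂ, w = fun I => g I / (nm I : ℂ) * (U (nm I / X) : ℂ) := ⟨_, rfl⟩
  obtain ⟨S', hS'⟩ : ∃ S' : Finset (Ideal R), S' = S.filter (fun I => χ I ≠ 0 ∧ g I ≠ 0) := ⟨_, rfl⟩
  have hS'm : ∀ I : Ideal R, I ∈ S' ↔ nm I ≤ Z ∧ χ I ≠ 0 ∧ g I ≠ 0 := by
    intro I
    rw [hS', Finset.mem_filter, hSm]
  -- finite sum and tail
  have hpwn : ∀ a : ℕ, ∀ I : Ideal R, ‖pw χ a I‖ ≤ 1 := by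
    intro a I
    unfold pw
    by_cases h : χ I = 0
    · simp [h]
    · simp only [h, if_false, norm_pow, hnorm I h, one_pow, le_refl]
  have hta : ∀ a : ℕ, ‖smo U g X (pw χ a) - ∑ I ∈ S', χ I ^ a * w I‖ ≤ C3 := by
    intro a
    have e1 := htail Q hQ1 (pw χ a) (hpwn a) S (fun I => by rw [hSm, hZ])
    rw [← hX] at e1
    have e2 : ∑ I ∈ S, pw χ a I * g I / (nm I : ℂ) * (U (nm I / X) : ℂ) =
        ∑ I ∈ S', χ I ^ a * w I := by
      rw [hS', Finset.sum_filter]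
      refine Finset.sum_congr rfl fun I _ => ?_
      by_cases h : χ I = 0
      · rw [if_neg (fun h' => h'.1 h)]
        simp [pw, h]
      · by_cases h' : g I = 0
        · rw [if_neg (fun h'' => h''.2 h'), h']
          simp
        · rw [if_pos ⟨h, h'⟩, hw]
          simp only [pw, h, if_false]
          ring
    rw [e2] at e1
    exact e1
  -- the coefficients
  have hwb : ∀ I : Ideal R, I ≠ ⊥ → ‖w I‖ ≤ B * Q ^ η * (1 / Real.sqrt (nm I)) := by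
    intro I hI
    have hn1 : 1 ≤ nm I := b3 I hI
    have hn0 : 0 < nm I := by linarith
    have e1 := hUη (nm I / X) (by positivity)
    have e2 : (nm I / X) ^ (-η) ≤ x0 ^ η * Q ^ η := by
      rw [Real.div_rpow hn0.le hX0.le, Real.rpow_neg hX0.le, div_inv_eq_mul, hX,
        Real.mul_rpow hx0.le hQ0.le]
      refine mul_le_of_le_one_left (by positivity) ?_
      exact Real.rpow_le_one_of_one_le_of_nonpos hn1 (by linarith)
    have e3 : ‖g I‖ / nm I ≤ 1 / Real.sqrt (nm I) := by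
      rw [div_le_div_iff₀ hn0 (Real.sqrt_pos.2 hn0), one_mul]
      calc ‖g I‖ * Real.sqrt (nm I) ≤ Real.sqrt (nm I) * Real.sqrt (nm I) :=
            mul_le_mul_of_nonneg_right (hgn I) (Real.sqrt_nonneg _)
        _ = nm I := Real.mul_self_sqrt hn0.le
    rw [hw]
    simp only
    rw [norm_mul, norm_div, Complex.norm_real, Complex.norm_real, Real.norm_of_nonneg hn0.le,
      Real.norm_eq_abs]
    calc ‖g I‖ / nm I * |U (nm I / X)| ≤ (1 / Real.sqrt (nm I)) * (Cη * (x0 ^ η * Q ^ η)) := by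
          refine mul_le_mul e3 (e1.trans (mul_le_mul_of_nonneg_left e2 hCη.le)) (abs_nonneg _)
            (by positivity)
      _ = _ := by rw [hB]; ring
  have hbz : ∀ I : Ideal R, χ I ≠ 0 → I ≠ ⊥ := fun I hI h0 => hI ((hχ.rc.zero I).2 (Or.inl h0))
  -- the pairs
  obtain ⟨P, hP⟩ : ∃ P : Finset (Ideal R × Ideal R),
      P = (S' ×ˢ S').filter (fun p => χ p.1 = χ p.2) := ⟨_, rfl⟩
  have hPm : ∀ p ∈ P, (nm p.1 ≤ Z ∧ χ p.1 ≠ 0 ∧ g p.1 ≠ 0) ∧ (nm p.2 ≤ Z ∧ χ p.2 ≠ 0 ∧ g p.2 ≠ 0) ∧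
      χ p.1 = χ p.2 := by
    intro p hp
    rw [hP, Finset.mem_filter, Finset.mem_product, hS'm, hS'm] at hp
    exact ⟨hp.1.1, hp.1.2, hp.2⟩
  have horth := Pool.Agent.W192.HL.H400.orth S' χ w d hd.pos (fun I hI => by
    rw [hS'm] at hI
    exact hd.pow I hI.2.1)
  have hpairs : ∑ p ∈ S' ×ˢ S', (if χ p.1 = χ p.2 then ‖w p.1‖ * ‖w p.2‖ else 0) ≤
      (B * Q ^ η) ^ 2 * ∑ p ∈ P, 1 / (Real.sqrt (nm p.1) * Real.sqrt (nm p.2)) := by
    rw [← Finset.sum_filter, ← hP, Finset.mul_sum]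
    refine Finset.sum_le_sum fun p hp => ?_
    obtain ⟨h5, h6, -⟩ := hPm p hp
    calc ‖w p.1‖ * ‖w p.2‖ ≤ (B * Q ^ η * (1 / Real.sqrt (nm p.1))) *
          (B * Q ^ η * (1 / Real.sqrt (nm p.2))) :=
          mul_le_mul (hwb _ (hbz _ h5.2.1)) (hwb _ (hbz _ h6.2.1)) (norm_nonneg _) (by positivity)
      _ = _ := by
          rw [one_div, one_div, one_div, mul_inv]
          ring
  -- dyadic decomposition
  obtain ⟨K, hK⟩ : ∃ K : ℕ, K = Nat.log 2 ⌊Z⌋₊ + 1 := ⟨_, rfl⟩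
  have hfl : 1 ≤ ⌊Z⌋₊ := Nat.le_floor (by exact_mod_cast hZ1)
  have hK1 : (2:ℝ) ^ (K - 1 : ℕ) ≤ Z := by
    have e1 : 2 ^ (Nat.log 2 ⌊Z⌋₊) ≤ ⌊Z⌋₊ := Nat.pow_log_le_self 2 (by omega)
    have e2 : ((2 ^ (Nat.log 2 ⌊Z⌋₊) : ℕ) : ℝ) ≤ (⌊Z⌋₊ : ℝ) := by exact_mod_cast e1
    have e3 : (⌊Z⌋₊ : ℝ) ≤ Z := Nat.floor_le hZ0.le
    have e4 : K - 1 = Nat.log 2 ⌊Z⌋₊ := by omega
    rw [e4]
    push_cast at e2
    linarith
  have hK2 : ∀ n : ℕ, (n : ℝ) ≤ Z → n < 2 ^ K := by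
    intro n hn
    have e1 : n ≤ ⌊Z⌋₊ := Nat.le_floor hn
    rw [hK]
    exact lt_of_le_of_lt e1 (Nat.lt_pow_succ_log_self one_lt_two _)
  have hKb : (K : ℝ) ≤ D * Q ^ η := by
    have e1 : ((K - 1 : ℕ) : ℝ) * Real.log 2 ≤ Real.log Z := by
      rw [← Real.log_pow]
      exact Real.log_le_log (by positivity) hK1
    have e2 : Real.log Z ≤ 2 * (Q ^ η / η) := by
      rw [hZ, Real.log_rpow hQ0]
      have e3 : Real.log Q ≤ Q ^ η / η := Real.log_le_rpow_div hQ0.le hη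
      have e4 : 0 ≤ Real.log Q := Real.log_nonneg hQ1
      exact mul_le_mul (by linarith only [hη1]) e3 e4 (by norm_num)
    have e3 : ((K - 1 : ℕ) : ℝ) = (K : ℝ) - 1 := by
      have : 1 ≤ K := by omega
      push_cast [Nat.cast_sub this]
      ring
    rw [e3] at e1
    have e5 : (K : ℝ) - 1 ≤ 2 * (Q ^ η / η) / Real.log 2 := by
      rw [le_div_iff₀ hlog2]
      exact e1.trans e2
    have e6 : 2 * (Q ^ η / η) / Real.log 2 = 2 / (η * Real.log 2) * Q ^ η := by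
      field_simp
    rw [e6] at e5
    rw [hD, add_mul, one_mul]
    linarith only [e5, hQη1]
  obtain ⟨A, hA⟩ : ∃ A : ℝ, A = 12 * C1 * Q ^ (5 * η) * (Q / d) := ⟨_, rfl⟩
  have hA0 : 0 ≤ A := by rw [hA]; positivity
  have hbox : ∀ i < K, ∀ j < K, ((P.filter (fun p : Ideal R × Ideal R =>
      Nat.card (R ⧸ p.1) < 2 ^ (i+1) ∧ Nat.card (R ⧸ p.2) < 2 ^ (j+1))).card : ℝ) ≤
      A * (Real.sqrt (2 ^ (i+1)) * Real.sqrt (2 ^ (j+1))) := by
    intro i hi j hj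
    obtain ⟨x, hx⟩ : ∃ x : ℝ, x = 2 ^ (i+1) := ⟨_, rfl⟩
    obtain ⟨y, hy⟩ : ∃ y : ℝ, y = 2 ^ (j+1) := ⟨_, rfl⟩
    have hx1 : 1 ≤ x := by rw [hx]; exact one_le_pow₀ (by norm_num)
    have hy1 : 1 ≤ y := by rw [hy]; exact one_le_pow₀ (by norm_num)
    have hpk : ∀ i < K, (2:ℝ) ^ (i+1) ≤ 2 * Z := by
      intro i hi
      have e1 : (2:ℝ) ^ (i + 1) ≤ 2 * 2 ^ (K - 1) := by
        have e2 : 2 * (2:ℝ) ^ (K - 1) = 2 ^ K := by
          rw [← pow_succ']; congr 1; omega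
        rw [e2]
        exact pow_le_pow_right₀ (by norm_num) (by omega)
      linarith
    have hx2 : x ≤ 2 * Z := by rw [hx]; exact hpk i hi
    have hy2 : y ≤ 2 * Z := by rw [hy]; exact hpk j hj
    rw [← hx, ← hy]
    obtain ⟨V, hV⟩ : ∃ V : Finset (Ideal R × Ideal R), V = P.filter (fun p : Ideal R × Ideal R =>
      Nat.card (R ⧸ p.1) < 2 ^ (i+1) ∧ Nat.card (R ⧸ p.2) < 2 ^ (j+1)) := ⟨_, rfl⟩
    rw [← hV]
    have hVm : ∀ p ∈ V, p ∈ prR f χ x y := by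
      intro p hp
      rw [hV, Finset.mem_filter] at hp
      obtain ⟨hp1, h6, h7⟩ := hp
      obtain ⟨⟨-, p2, p3⟩, ⟨-, p5, p6⟩, p7⟩ := hPm p hp1
      refine ⟨(hgs _ p3).1, (hgs _ p6).2, ?_, ?_, p2, p7⟩
      · rw [hx]
        unfold nm
        exact_mod_cast h6.le
      · rw [hy]
        unfold nm
        exact_mod_cast h7.le
    obtain ⟨g1, g2⟩ := hpair q χ hχ d hd x y hx1 hy1
    have e1 : (V.card : ℝ) ≤ C1 * (x * y) ^ η * (Real.sqrt (x * y) + x * y / Q) * (Q / d) := by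
      rw [← hQ] at g2
      refine le_trans ?_ g2
      have := Set.ncard_le_ncard (s := (V : Set (Ideal R × Ideal R))) (fun p hp => hVm p hp) g1
      rw [Set.ncard_coe_finset] at this
      exact_mod_cast this
    have hxy0 : 0 ≤ x * y := by positivity
    have e2 : x * y ≤ 4 * Z ^ 2 := by
      calc x * y ≤ (2 * Z) * (2 * Z) := mul_le_mul hx2 hy2 (by linarith only [hy1]) (by positivity)
        _ = 4 * Z ^ 2 := by ring
    have e3 : Real.sqrt (x * y) ≤ 2 * Z := by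
      rw [Real.sqrt_le_left (by positivity)]
      calc x * y ≤ 4 * Z ^ 2 := e2
        _ = (2 * Z) ^ 2 := by ring
    have e4 : x * y / Q ≤ Real.sqrt (x * y) * (2 * Q ^ η) := by
      rw [div_le_iff₀ hQ0]
      calc x * y = Real.sqrt (x * y) * Real.sqrt (x * y) := (Real.mul_self_sqrt hxy0).symm
        _ ≤ Real.sqrt (x * y) * (2 * Z) := mul_le_mul_of_nonneg_left e3 (Real.sqrt_nonneg _)
        _ = _ := by rw [hZQ]; ring
    have e5 : Real.sqrt (x * y) + x * y / Q ≤ Real.sqrt (x * y) * (3 * Q ^ η) := by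
      have e5' : Real.sqrt (x * y) ≤ Real.sqrt (x * y) * Q ^ η :=
        le_mul_of_one_le_right (Real.sqrt_nonneg _) hQη1
      linarith only [e5', e4]
    have e6 : (x * y) ^ η ≤ 4 * Q ^ (4 * η) := by
      calc (x * y) ^ η ≤ (4 * Z ^ 2) ^ η := Real.rpow_le_rpow hxy0 e2 hη.le
        _ = 4 ^ η * (Z ^ 2) ^ η := Real.mul_rpow (by norm_num) (by positivity)
        _ ≤ 4 * Q ^ (4 * η) := by
            refine mul_le_mul ?_ ?_ (by positivity) (by norm_num)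
            · calc (4 : ℝ) ^ η ≤ 4 ^ (1 : ℝ) :=
                    Real.rpow_le_rpow_of_exponent_le (by norm_num) hη1
                _ = 4 := Real.rpow_one 4
            · rw [hZ, ← Real.rpow_natCast (Q ^ (1 + η)) 2, ← Real.rpow_mul hQ0.le,
                ← Real.rpow_mul hQ0.le]
              exact Real.rpow_le_rpow_of_exponent_le hQ1 hηq
    calc (V.card : ℝ) ≤ C1 * (x * y) ^ η * (Real.sqrt (x * y) + x * y / Q) * (Q / d) := e1
      _ ≤ C1 * (4 * Q ^ (4 * η)) * (Real.sqrt (x * y) * (3 * Q ^ η)) * (Q / d) := by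
          refine mul_le_mul_of_nonneg_right ?_ (by positivity)
          refine mul_le_mul (mul_le_mul_of_nonneg_left e6 hC1.le) e5 (by positivity) (by positivity)
      _ = 12 * C1 * (Q ^ (4 * η) * Q ^ η) * (Q / d) * Real.sqrt (x * y) := by ring
      _ = A * (Real.sqrt x * Real.sqrt y) := by
          rw [← Real.rpow_add hQ0, hA, Real.sqrt_mul (by linarith)]
          congr 4
          ring
  have hone : ∀ I : Ideal R, I ≠ ⊥ → 1 ≤ Nat.card (R ⧸ I) := by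
    intro I hI
    have := b3 I hI
    unfold nm at this
    exact_mod_cast this
  have hdy := Pool.Agent.W192.HL.H15.dyad P (fun p => Nat.card (R ⧸ p.1)) (fun p => Nat.card (R ⧸ p.2))
    K A hA0
    (fun p hp => ⟨hone _ (hbz _ (hPm p hp).1.2.1), hK2 _ (hPm p hp).1.1⟩)
    (fun p hp => ⟨hone _ (hbz _ (hPm p hp).2.1.2.1), hK2 _ (hPm p hp).2.1.1⟩) hbox
  have hdy' : ∑ p ∈ P, 1 / (Real.sqrt (nm p.1) * Real.sqrt (nm p.2)) ≤ 2 * A * (K : ℝ) ^ 2 := hdy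
  -- the main part
  have hmain : ∑ a ∈ Finset.range d, ‖∑ I ∈ S', χ I ^ a * w I‖ ^ 2 ≤
      B ^ 2 * (2 * (12 * C1) * D ^ 2) * Q ^ (1 + ε) := by
    refine horth.trans ?_
    have e1 : (K : ℝ) ^ 2 ≤ (D * Q ^ η) ^ 2 := pow_le_pow_left₀ (Nat.cast_nonneg _) hKb 2
    calc (d : ℝ) * ∑ p ∈ S' ×ˢ S', (if χ p.1 = χ p.2 then ‖w p.1‖ * ‖w p.2‖ else 0) ≤
          d * ((B * Q ^ η) ^ 2 * (2 * A * (D * Q ^ η) ^ 2)) := by
          refine mul_le_mul_of_nonneg_left (hpairs.trans ?_) hd0.le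
          refine mul_le_mul_of_nonneg_left (hdy'.trans ?_) (by positivity)
          exact mul_le_mul_of_nonneg_left e1 (by positivity)
      _ = B ^ 2 * (2 * (12 * C1) * D ^ 2) *
            (Q * (Q ^ (5 * η) * (Q ^ η * Q ^ η * Q ^ η * Q ^ η))) := by
          rw [hA]
          field_simp
      _ = B ^ 2 * (2 * (12 * C1) * D ^ 2) * Q ^ (1 + 9 * η) := by
          congr 1
          rw [← Real.rpow_add hQ0, ← Real.rpow_add hQ0, ← Real.rpow_add hQ0, ← Real.rpow_add hQ0]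
          nth_rewrite 1 [← Real.rpow_one Q]
          rw [← Real.rpow_add hQ0]
          congr 1
          ring
      _ ≤ _ := by
          refine mul_le_mul_of_nonneg_left ?_ (by positivity)
          exact Real.rpow_le_rpow_of_exponent_le hQ1 (by linarith)
  have hpt : ∀ a ∈ Finset.range d, ‖smo U g X (pw χ a)‖ ^ 2 ≤
      2 * ‖∑ I ∈ S', χ I ^ a * w I‖ ^ 2 + 2 * C3 ^ 2 := by
    intro a _
    have e1 := hta a
    have e2 : ‖smo U g X (pw χ a)‖ ≤ ‖∑ I ∈ S', χ I ^ a * w I‖ + C3 := by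
      calc ‖smo U g X (pw χ a)‖ = ‖(∑ I ∈ S', χ I ^ a * w I) +
            (smo U g X (pw χ a) - ∑ I ∈ S', χ I ^ a * w I)‖ := by congr 1; ring
        _ ≤ _ := (norm_add_le _ _).trans (add_le_add_right e1 _)
    calc ‖smo U g X (pw χ a)‖ ^ 2 ≤ (‖∑ I ∈ S', χ I ^ a * w I‖ + C3) ^ 2 :=
          pow_le_pow_left₀ (norm_nonneg _) e2 2
      _ ≤ _ := sq_add_le _ _
  rw [← hX]
  have hQε : Q ≤ Q ^ (1 + ε) := by
    calc Q = Q ^ (1 : ℝ) := (Real.rpow_one Q).symm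
      _ ≤ _ := Real.rpow_le_rpow_of_exponent_le hQ1 (by linarith)
  calc ∑ a ∈ Finset.range d, ‖smo U g X (pw χ a)‖ ^ 2
      ≤ ∑ a ∈ Finset.range d, (2 * ‖∑ I ∈ S', χ I ^ a * w I‖ ^ 2 + 2 * C3 ^ 2) :=
        Finset.sum_le_sum hpt
    _ = 2 * ∑ a ∈ Finset.range d, ‖∑ I ∈ S', χ I ^ a * w I‖ ^ 2 + d * (2 * C3 ^ 2) := by
        rw [Finset.sum_add_distrib, Finset.mul_sum, Finset.sum_const, Finset.card_range,
          nsmul_eq_mul]
    _ ≤ 2 * (B ^ 2 * (2 * (12 * C1) * D ^ 2) * Q ^ (1 + ε)) +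
          (2 * C1 * Q ^ (1 + ε)) * (2 * C3 ^ 2) := by
        refine add_le_add (by linarith) (mul_le_mul_of_nonneg_right (hdq.trans ?_) (by positivity))
        exact mul_le_mul_of_nonneg_left hQε (by positivity)
    _ = _ := by ring

end Pool.Agent.TH936.AG
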