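import Pool.Agent.TH936.AC.Fin
import Pool.Agent.TH936.AC.Dec

/-!
# Project AG (owner helper936): the mean square over the powers of a ring class character

This file: the number of pairs of ideals `(I, J)` with `χ(I) = χ(J)`.
-/

set_option autoImplicit false

open Complex

namespace Pool.Agent.TH936.AG

open Pool.Agent.W192.HK Pool.Agent.TH936.AC

variable {R : Subring ℂ} {ω : ℂ}

/-- the number of ideals prime to `f` in the kernel of `χ` -/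
theorem cnt_ker (h1 : H_BASIC) (h3 : H_CNT) (a1 : A_BAR) (a2 : A_LINE) (hR : QP R ω)
    {f : Ideal R} (hf : Ram f) : ∃ C : ℝ, 0 < C ∧ ∀ (q : ℕ) (χ : Ideal R → ℂ), RG q χ →
      ∀ d : ℕ, Od χ d → ∀ Y : ℝ, 1 ≤ Y →
      {T : Ideal R | IsCoprime T f ∧ nm T ≤ Y ∧ χ T = 1}.Finite ∧
      (Set.ncard {T : Ideal R | IsCoprime T f ∧ nm T ≤ Y ∧ χ T = 1} : ℝ) ≤
        C * (Real.sqrt Y + Y / q) * (q / d) := by
  classical
  obtain ⟨C, hC, hline⟩ := a2 R ω hR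
  obtain ⟨hfin, -⟩ := h3 R ω hR.qr
  obtain ⟨b1, b2, b3, b4, b5, b6, b7, b8, b9⟩ := h1 R ω hR.qr
  refine ⟨2 * C, by positivity, fun q χ hχ d hd Y hY => ?_⟩
  have hq0 : (0 : ℝ) < q := by exact_mod_cast hχ.prime.pos
  have hd0 : (0 : ℝ) < d := by exact_mod_cast hd.pos
  have hY0 : 0 < Y := by linarith
  have hsub0 : {T : Ideal R | IsCoprime T f ∧ nm T ≤ Y ∧ χ T = 1} ⊆ {I : Ideal R | nm I ≤ Y} :=
    fun T hT => hT.2.1
  refine ⟨(hfin Y).subset hsub0, ?_⟩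
  set K : ℕ := ⌊Real.sqrt Y⌋₊ with hK
  have hKY : (K : ℝ) ≤ Real.sqrt Y := Nat.floor_le (Real.sqrt_nonneg _)
  have hcnt : ∀ m : ℕ, {c : Ideal R | Pri c ∧ nm c ≤ Y / (m : ℝ) ^ 2 ∧ χ c ≠ 0 ∧ χ c ^ 1 = 1}.Finite :=
    fun m => (hfin (Y / (m : ℝ) ^ 2)).subset fun c hc => hc.2.1
  have hsub : {T : Ideal R | IsCoprime T f ∧ nm T ≤ Y ∧ χ T = 1} ⊆
      ⋃ m ∈ Finset.Ioo 0 (K + 1), (fun c : Ideal R => sp (m : R) * c) ''
        {c : Ideal R | Pri c ∧ nm c ≤ Y / (m : ℝ) ^ 2 ∧ χ c ≠ 0 ∧ χ c ^ 1 = 1} := by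
    rintro T ⟨hT1, hT2, hT3⟩
    have hTb : T ≠ ⊥ := by
      intro h0
      have : χ T = 0 := (hχ.rc.zero T).2 (Or.inl h0)
      rw [this] at hT3
      exact zero_ne_one hT3
    obtain ⟨c, m, hc, hm, hmc⟩ := Dec.exists_dec h1 a1 hR f hf _ T hTb hT1 le_rfl
    have hm1 : (1 : ℝ) ≤ m := by exact_mod_cast hm
    have hc1 : 1 ≤ nm c := b3 c hc.1
    have hnm : (m : ℝ) ^ 2 * nm c ≤ Y := by
      rw [← Dec.nm_sp_nat h1 hR m, ← b4, hmc]
      exact hT2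
    have hmul : χ (sp (m : R)) * χ c = 1 := by rw [← hχ.rc.mul, hmc, hT3]
    have hχm : χ (sp (m : R)) ≠ 0 := left_ne_zero_of_mul_eq_one hmul
    have hχc : χ c ≠ 0 := right_ne_zero_of_mul_eq_one hmul
    have hcop : IsCoprime (sp (m : R)) (sp (q : R)) := by
      by_contra e
      exact hχm ((hχ.rc.zero _).2 (Or.inr e))
    have hcop' : Nat.Coprime m q :=
      Wcc.nat_cop hχ.prime hcop (Wcc.q_ne_top h1 hR.qr hχ.prime)
    rw [hχ.int m hcop', one_mul] at hmul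
    have hmK : m ≤ K := by
      refine Nat.le_floor (Real.le_sqrt_of_sq_le ?_)
      nlinarith [sq_nonneg (m : ℝ)]
    simp only [Set.mem_iUnion]
    refine ⟨m, Finset.mem_Ioo.2 ⟨hm, by omega⟩, c, ⟨hc, ?_, hχc, by rw [pow_one]; exact hmul⟩, hmc⟩
    rw [le_div_iff₀ (by positivity)]
    linarith
  have hfinU : (⋃ m ∈ Finset.Ioo 0 (K + 1), (fun c : Ideal R => sp (m : R) * c) ''
        {c : Ideal R | Pri c ∧ nm c ≤ Y / (m : ℝ) ^ 2 ∧ χ c ≠ 0 ∧ χ c ^ 1 = 1}).Finite :=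
    Set.Finite.biUnion (Finset.finite_toSet _) fun m _ => (hcnt m).image _
  have e1 := (Set.ncard_le_ncard hsub hfinU).trans (Finset.set_ncard_biUnion_le _ _)
  have e2 : ∀ m ∈ Finset.Ioo 0 (K + 1), (((fun c : Ideal R => sp (m : R) * c) ''
        {c : Ideal R | Pri c ∧ nm c ≤ Y / (m : ℝ) ^ 2 ∧ χ c ≠ 0 ∧ χ c ^ 1 = 1}).ncard : ℝ) ≤
      C * (q / d) * (1 + Y / q * ((m : ℝ) ^ 2)⁻¹) := by
    intro m hm
    obtain ⟨hm0, hmK⟩ := Finset.mem_Ioo.1 hm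
    have hm1 : (1 : ℝ) ≤ m := by exact_mod_cast hm0
    have hmY : (m : ℝ) ^ 2 ≤ Y := by
      have h2 : (m : ℝ) ≤ Real.sqrt Y := by
        refine le_trans ?_ hKY
        exact_mod_cast Nat.lt_succ_iff.1 hmK
      calc (m : ℝ) ^ 2 ≤ (Real.sqrt Y) ^ 2 := by gcongr
        _ = Y := Real.sq_sqrt hY0.le
    have h2 := hline q χ hχ d hd 1 (one_dvd _) (Y / (m : ℝ) ^ 2)
      ((one_le_div (by positivity)).2 hmY)
    have h3 : (((fun c : Ideal R => sp (m : R) * c) ''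
        {c : Ideal R | Pri c ∧ nm c ≤ Y / (m : ℝ) ^ 2 ∧ χ c ≠ 0 ∧ χ c ^ 1 = 1}).ncard : ℝ) ≤
        (cntP χ 1 (Y / (m : ℝ) ^ 2) : ℝ) := by
      exact_mod_cast Set.ncard_image_le (hcnt m)
    refine h3.trans (h2.trans (le_of_eq ?_))
    have hm2 : (m : ℝ) ^ 2 ≠ 0 := by positivity
    push_cast
    field_simp
  have e3 : (Set.ncard {T : Ideal R | IsCoprime T f ∧ nm T ≤ Y ∧ χ T = 1} : ℝ) ≤
      ∑ m ∈ Finset.Ioo 0 (K + 1), C * (q / d) * (1 + Y / q * ((m : ℝ) ^ 2)⁻¹) := by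
    refine le_trans ?_ (Finset.sum_le_sum e2)
    exact_mod_cast e1
  refine e3.trans ?_
  rw [← Finset.mul_sum, Finset.sum_add_distrib, ← Finset.mul_sum, Finset.sum_const]
  have e4 : ∑ m ∈ Finset.Ioo 0 (K + 1), ((m : ℝ) ^ 2)⁻¹ ≤ 2 := by
    have h5 := sum_Ioo_inv_sq_le (α := ℝ) 0 (K + 1)
    norm_num at h5 ⊢
    exact h5
  have e5 : (Finset.Ioo 0 (K + 1)).card • (1 : ℝ) ≤ Real.sqrt Y := by
    rw [Nat.card_Ioo, nsmul_eq_mul, mul_one]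
    refine le_trans ?_ hKY
    norm_num
  have e6 : 0 ≤ Real.sqrt Y := Real.sqrt_nonneg _
  calc C * (q / d) * ((Finset.Ioo 0 (K + 1)).card • (1 : ℝ) +
        Y / q * ∑ m ∈ Finset.Ioo 0 (K + 1), ((m : ℝ) ^ 2)⁻¹) ≤
        C * (q / d) * (Real.sqrt Y + Y / q * 2) := by
        refine mul_le_mul_of_nonneg_left (add_le_add e5 ?_) (by positivity)
        exact mul_le_mul_of_nonneg_left e4 (by positivity)
    _ ≤ C * (q / d) * (2 * (Real.sqrt Y + Y / q)) := by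
        refine mul_le_mul_of_nonneg_left ?_ (by positivity)
        linarith
    _ = _ := by ring

/-- the pairs with `χ(I) = χ(J)` -/
def prR (f : Ideal R) (χ : Ideal R → ℂ) (x y : ℝ) : Set (Ideal R × Ideal R) :=
  {p | IsCoprime p.1 f ∧ IsCoprime (bar p.2) f ∧ nm p.1 ≤ x ∧ nm p.2 ≤ y ∧ χ p.1 ≠ 0 ∧
    χ p.1 = χ p.2}

/-- the number of pairs -/
theorem cnt_pair (h1 : H_BASIC) (h2 : H_FPR) (h3 : H_CNT) (h4 : H_DIVR) (a1 : A_BAR) (a2 : A_LINE)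
    (hR : QP R ω) {f : Ideal R} (hf : Ram f) (η : ℝ) (hη : 0 < η) : ∃ C : ℝ, 0 < C ∧
      ∀ (q : ℕ) (χ : Ideal R → ℂ), RG q χ → ∀ d : ℕ, Od χ d → ∀ x y : ℝ, 1 ≤ x → 1 ≤ y →
      (prR f χ x y).Finite ∧
      (Set.ncard (prR f χ x y) : ℝ) ≤
        C * (x * y) ^ η * (Real.sqrt (x * y) + x * y / q) * (q / d) := by
  classical
  have := hR.qr.ded
  obtain ⟨C, hC, hker⟩ := cnt_ker h1 h3 a1 a2 hR hf
  obtain ⟨hfin, -⟩ := h3 R ω hR.qr
  obtain ⟨b1, b2, b3, b4, b5, b6, b7, b8, b9⟩ := h1 R ω hR.qr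
  obtain ⟨-, -, k3, k4, -, -, k7, k8, k9, k10, k11, k12, k13, k14⟩ := a1 R ω hR
  obtain ⟨Cτ, hCτ, hdiv⟩ := h4 R ω hR.qr η hη
  refine ⟨C * Cτ, by positivity, fun q χ hχ d hd x y hx hy => ?_⟩
  have hq0 : (0 : ℝ) < q := by exact_mod_cast hχ.prime.pos
  have hd0 : (0 : ℝ) < d := by exact_mod_cast hd.pos
  have hxy : 1 ≤ x * y := one_le_mul_of_one_le_of_one_le hx hy
  have hfinP : (prR f χ x y).Finite := by
    refine Set.Finite.subset ((hfin x).prod (hfin y)) ?_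
    rintro p ⟨-, -, p3, p4, -, -⟩
    exact ⟨p3, p4⟩
  refine ⟨hfinP, ?_⟩
  obtain ⟨hKf, hKc⟩ := hker q χ hχ d hd (x * y) hxy
  have hcs := cs_rg h1 h2 a1 hR hχ
  obtain ⟨-, hnorm, -, -⟩ := h2 R ω hR.qr _ χ hχ.rc
  set S : Finset (Ideal R) := hKf.toFinset with hS
  have hfS : ∀ T ∈ S, T ≠ ⊥ := by
    intro T hT h0
    rw [hS, Set.Finite.mem_toFinset] at hT
    have : χ T = 0 := (hχ.rc.zero T).2 (Or.inl h0)
    rw [hT.2.2] at this
    exact one_ne_zero this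
  have hnz : ∀ I : Ideal R, χ I ≠ 0 → I ≠ ⊥ := fun I hI h0 => hI ((hχ.rc.zero I).2 (Or.inl h0))
  have hbz : ∀ I : Ideal R, I ≠ ⊥ → bar I ≠ ⊥ := by
    intro I hI h0
    apply hI
    rw [← k3 I, h0, k10]
  have hmaps : ∀ p ∈ prR f χ x y, (fun p : Ideal R × Ideal R => (p.1 * bar p.2, p.1)) p ∈
      (⋃ T ∈ S, ({T} ×ˢ {J : Ideal R | J ∣ T} : Set (Ideal R × Ideal R))) := by
    rintro ⟨I, J⟩ ⟨p1, p2, p3, p4, p5, p6⟩
    simp only [Set.mem_iUnion]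
    refine ⟨I * bar J, ?_, rfl, Dvd.intro _ rfl⟩
    rw [hS, Set.Finite.mem_toFinset]
    refine ⟨IsCoprime.mul_left p1 p2, ?_, ?_⟩
    · rw [b4, k8]
      exact mul_le_mul p3 p4 (Nat.cast_nonneg _) (by linarith)
    · show χ (I * bar J) = 1
      have p6' : χ I = χ J := p6
      rw [hχ.rc.mul, hcs J, ← p6', Complex.mul_conj, Complex.normSq_eq_norm_sq, hnorm I p5]
      simp
  have hinj : Set.InjOn (fun p : Ideal R × Ideal R => (p.1 * bar p.2, p.1)) (prR f χ x y) := by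
    rintro ⟨I, J⟩ hp ⟨I', J'⟩ _ h
    simp only [Prod.mk.injEq] at h
    obtain ⟨h5, h6⟩ := h
    have hI : I ≠ ⊥ := hnz I hp.2.2.2.2.1
    rw [← h6] at h5
    have h7 : bar J = bar J' := mul_left_cancel₀ hI h5
    have h8 : J = J' := by rw [← k3 J, h7, k3]
    rw [← h6, h8]
  have hUf : (⋃ T ∈ S, ({T} ×ˢ {J : Ideal R | J ∣ T} : Set (Ideal R × Ideal R))).Finite :=
    Set.Finite.biUnion (Finset.finite_toSet _) fun T hT =>
      (Set.finite_singleton T).prod (hdiv T (hfS T hT)).1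
  have e1 := (Set.ncard_le_ncard_of_injOn _ hmaps hinj hUf).trans (Finset.set_ncard_biUnion_le _ _)
  have e2 : ∀ T ∈ S, (Set.ncard ({T} ×ˢ {J : Ideal R | J ∣ T} : Set (Ideal R × Ideal R)) : ℝ) ≤
      Cτ * (x * y) ^ η := by
    intro T hT
    obtain ⟨g1, g2⟩ := hdiv T (hfS T hT)
    rw [Set.ncard_prod, Set.ncard_singleton, one_mul]
    refine g2.trans (mul_le_mul_of_nonneg_left ?_ hCτ.le)
    have hT' := hT
    rw [hS, Set.Finite.mem_toFinset] at hT'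
    exact Real.rpow_le_rpow (Nat.cast_nonneg _) hT'.2.1 hη.le
  have e3 : (Set.ncard (prR f χ x y) : ℝ) ≤ ∑ _T ∈ S, Cτ * (x * y) ^ η := by
    refine le_trans ?_ (Finset.sum_le_sum e2)
    exact_mod_cast e1
  have e4 : (S.card : ℝ) ≤ C * (Real.sqrt (x * y) + x * y / q) * (q / d) := by
    refine le_trans (le_of_eq ?_) hKc
    rw [Set.ncard_eq_toFinset_card _ hKf]
  rw [Finset.sum_const, nsmul_eq_mul] at e3
  refine e3.trans ?_
  have e5 : 0 ≤ (x * y) ^ η := Real.rpow_nonneg (by linarith) _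
  calc (S.card : ℝ) * (Cτ * (x * y) ^ η) ≤
        (C * (Real.sqrt (x * y) + x * y / q) * (q / d)) * (Cτ * (x * y) ^ η) :=
        mul_le_mul_of_nonneg_right e4 (by positivity)
    _ = _ := by ring

end Pool.Agent.TH936.AG
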